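import Pool.Agent.Helper47.HC.Defs
import Pool.Agent.Helper47.HP.LB

/-! # Project HC: deep points exist (Helly) -/

set_option autoImplicit false

open Set

namespace Pool.Agent.Helper47.HP

/-- A compact convex set contains a point `y` such that `(1 + θ) y - θ z` belongs to the set for
all `z` of the set, `θ = 1 / (dim + 1)`. -/
theorem exists_deep {E : Type*} [NormedAddCommGroup E] [NormedSpace ℝ E] [FiniteDimensional ℝ E]
    {S : Set E} (hS : IsCompact S) (hc : Convex ℝ S) (hne : S.Nonempty) {θ : ℝ} (hθ : 0 < θ)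
    (hθ1 : θ * (Module.finrank ℝ E + 1) ≤ 1) :
    ∃ y ∈ S, ∀ z ∈ S, (1 + θ) • y - θ • z ∈ S := by
  sorry

variable {E : Type*} [NormedAddCommGroup E] [NormedSpace ℝ E] [FiniteDimensional ℝ E] {P : Pot E}

theorem Pot.low_convex (hX : P.X = univ) (p : E →ₗ[ℝ] ℝ) : Convex ℝ (P.Low p) := by
  sorry

theorem Pot.low_compact (hX : P.X = univ) (h0 : P.IsFlat ⊥) {p : E →ₗ[ℝ] ℝ} (hp : P.Supp p) :
    IsCompact (P.Low p) := by
  sorry

/-- The function `φ - p` attains its minimum. -/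
theorem Pot.exists_min (hX : P.X = univ) (h0 : P.IsFlat ⊥) {p : E →ₗ[ℝ] ℝ} (hp : P.Supp p) :
    ∃ x₀, ∀ z, P.φ x₀ - p x₀ ≤ P.φ z - p z := by
  sorry

theorem Pot.exists_good (hX : P.X = univ) (h0 : P.IsFlat ⊥) {p : E →ₗ[ℝ] ℝ} (hp : P.Supp p)
    {θ : ℝ} (hθ : 0 < θ) (hθ1 : θ * (Module.finrank ℝ E + 1) ≤ 1) : ∃ y, P.Good θ p y := by
  sorry

end Pool.Agent.Helper47.HP
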