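import Pool.Agent.Helper47.HC.Defs
import Pool.Agent.Helper47.HP.LB

/-! # Project HC: almost symmetric sublevel sets are bounded -/

set_option autoImplicit false

open Set

namespace Pool.Agent.Helper47.HP

variable {E : Type*} [NormedAddCommGroup E] [NormedSpace ℝ E] {P : Pot E}

/-- A direction in which the convex function `φ` has almost symmetric growth is flat. -/
theorem Pot.flat_of_sym (hX : P.X = univ) {θ : ℝ} (hθ : 0 < θ) {y v : E} {c : ℝ}
    (h : ∀ t : ℝ, 0 ≤ t → θ * P.φ (y + t • v) + P.φ (y - (θ * t) • v) ≤ c) :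
    ∃ τ : ℝ, ∀ x : E, ∀ t : ℝ, P.φ (x + t • v) = P.φ x + t * τ := by
  sorry

theorem Pot.sym_bdd [FiniteDimensional ℝ E] (hX : P.X = univ) (h0 : P.IsFlat ⊥) {θ : ℝ}
    (hθ : 0 < θ) {K : Set E} (hK : IsCompact K) :
    ∃ R : ℝ, ∀ y ∈ K, ∀ u : E,
      θ * P.φ (y + u) + P.φ (y - θ • u) ≤ (1 + θ) * (P.φ y + 1) → ‖u‖ ≤ R := by
  sorry

end Pool.Agent.Helper47.HP
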