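import Pool.Agent.Helper47.HC.Conj
import Pool.Agent.Helper47.HC.GoodEx
import Pool.Agent.Helper47.HC.SymB

/-! # Project HC: uniform estimates at deep points -/

set_option autoImplicit false

open Set

namespace Pool.Agent.Helper47.HP

variable {E : Type*} [NormedAddCommGroup E] [NormedSpace ℝ E] {P : Pot E}

theorem Pot.neg_le_of_low {p : E →ₗ[ℝ] ℝ} {y : E} (hy : y ∈ P.Low p) (v : E) :
    -(p v) ≤ P.φ (y - v) - P.φ y + 1 := by
  sorry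

theorem Pot.good_bound [FiniteDimensional ℝ E] (hX : P.X = univ) (h0 : P.IsFlat ⊥) {θ : ℝ}
    (hθ : 0 < θ) {K : Set E} (hK : IsCompact K) :
    ∃ δ : ℝ, 0 < δ ∧ ∀ y ∈ K, ∀ p : E →ₗ[ℝ] ℝ, P.Supp p → P.Good θ p y →
      ∀ u : E →ₗ[ℝ] ℝ, (∀ x, |u x| ≤ δ * ‖x‖) →
        P.Supp (p + u) ∧ P.conj (p + u) + P.conj (p - u) ≤ 2 * P.conj p + 2 := by
  sorry

end Pool.Agent.Helper47.HP
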