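import Mathlib

/-! # Project HC: a convex function with bounded second differences on proportional scales -/

set_option autoImplicit false

open Set

namespace Pool.Agent.Helper47.HP

theorem growth {f : ℝ → ℝ} (hf : ConvexOn ℝ (Set.Ici (0 : ℝ)) f) {c : ℝ} (hc : 0 < c)
    (hc1 : c < 1) (h : ∀ s : ℝ, 0 < s → f (s + c * s) + f (s - c * s) ≤ 2 * f s + 2) :
    ∃ C : ℝ, ∀ j : ℕ, f ((1 + c) ^ j) ≤ C * (1 + c) ^ j := by
  sorry

end Pool.Agent.Helper47.HP
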