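import Pool.Agent.Helper47.HC.Inv
import Pool.Agent.Helper47.HC.GoodB
import Pool.Agent.Helper47.HC.Grow

/-! # Project HC: no linear form is nonpositive on the recession cone -/

set_option autoImplicit false

open Set

namespace Pool.Agent.Helper47.HP

variable {E : Type*} [NormedAddCommGroup E] [NormedSpace ℝ E] [FiniteDimensional ℝ E] {P : Pot E}

/-- If the directions of the recession cone span the space, finitely many of them control the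
norm of linear forms. -/
theorem Pot.exists_frame (hspan : ∀ q : E →ₗ[ℝ] ℝ, (∀ e ∈ P.epi, q e.1 = 0) → q = 0) :
    ∃ (T : Finset (E × ℝ)) (D : ℝ), 0 < D ∧ (∀ e ∈ T, e ∈ P.epi) ∧
      ∀ (q : E →ₗ[ℝ] ℝ) (C : ℝ), (∀ e ∈ T, |q e.1| ≤ C) → ∀ x, |q x| ≤ D * C * ‖x‖ := by
  sorry

theorem Pot.caseA (hX : P.X = univ) (h0 : P.IsFlat ⊥) {K : Set E} (hK : IsCompact K)
    (hco : ∀ x : E, ∃ y ∈ K, ∃ (g : E ≃ᵃ[ℝ] E) (a : E →ᵃ[ℝ] ℝ), P.Aut g a ∧ g y = x)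
    (hspan : ∀ q : E →ₗ[ℝ] ℝ, (∀ e ∈ P.epi, q e.1 = 0) → q = 0)
    (q : E →ₗ[ℝ] ℝ) (hq : ∀ e ∈ P.epi, q e.1 ≤ 0) : q = 0 := by
  sorry

end Pool.Agent.Helper47.HP
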