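import Pool.Agent.Helper47.HC.Inv
import Pool.Agent.Helper47.HC.GoodB

/-! # Project HC: the supporting forms are not bounded -/

set_option autoImplicit false

open Set

namespace Pool.Agent.Helper47.HP

variable {E : Type*} [NormedAddCommGroup E] [NormedSpace ℝ E] [FiniteDimensional ℝ E] {P : Pot E}

/-- If no nonzero linear form is nonpositive on the recession cone, the supporting forms are
bounded. -/
theorem Pot.supp_bdd (hX : P.X = univ) (h0 : P.IsFlat ⊥)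
    (hA : ∀ q : E →ₗ[ℝ] ℝ, (∀ e ∈ P.epi, q e.1 ≤ 0) → q = 0) :
    ∃ R : ℝ, ∀ p : E →ₗ[ℝ] ℝ, P.Supp p → ∀ x, |p x| ≤ R * ‖x‖ := by
  sorry

theorem Pot.caseB [Nontrivial E] (hX : P.X = univ) (h0 : P.IsFlat ⊥) {K : Set E}
    (hK : IsCompact K)
    (hco : ∀ x : E, ∃ y ∈ K, ∃ (g : E ≃ᵃ[ℝ] E) (a : E →ᵃ[ℝ] ℝ), P.Aut g a ∧ g y = x)
    (hA : ∀ q : E →ₗ[ℝ] ℝ, (∀ e ∈ P.epi, q e.1 ≤ 0) → q = 0) : False := by
  sorry

end Pool.Agent.Helper47.HP
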