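import Pool.Agent.Helper47.HC.Defs
import Pool.Agent.Helper47.HP.LB
import Pool.Agent.Helper47.HP.Sep

/-! # Project HC: the conjugate function -/

set_option autoImplicit false

open Set

namespace Pool.Agent.Helper47.HP

variable {E : Type*} [NormedAddCommGroup E] [NormedSpace ℝ E] {P : Pot E}

theorem Pot.mem_V_univ (hX : P.X = univ) (v : E) : v ∈ P.V := by
  sorry

/-- A symmetric pair in the recession cone is zero if there are no flat directions. -/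
theorem Pot.eq_zero_of_epi (hX : P.X = univ) (h0 : P.IsFlat ⊥) {e : E × ℝ} (he : e ∈ P.epi)
    (he' : -e ∈ P.epi) : e = 0 := by
  sorry

theorem Pot.supp_iff (hX : P.X = univ) (h0 : P.IsFlat ⊥) (p : E →ₗ[ℝ] ℝ) :
    P.Supp p ↔ ∀ e ∈ P.epi, e ≠ 0 → p e.1 < e.2 := by
  sorry

theorem Pot.conj_le {p : E →ₗ[ℝ] ℝ} {c : ℝ} (h : ∀ x, p x - P.φ x ≤ c) : P.conj p ≤ c := by
  sorry

variable [FiniteDimensional ℝ E]

theorem Pot.exists_supp (hX : P.X = univ) (h0 : P.IsFlat ⊥) : ∃ p : E →ₗ[ℝ] ℝ, P.Supp p := by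
  sorry

theorem Pot.bddAbove_conj (hX : P.X = univ) (h0 : P.IsFlat ⊥) {p : E →ₗ[ℝ] ℝ}
    (hp : P.Supp p) : BddAbove (Set.range fun x => p x - P.φ x) := by
  sorry

theorem Pot.le_conj (hX : P.X = univ) (h0 : P.IsFlat ⊥) {p : E →ₗ[ℝ] ℝ}
    (hp : P.Supp p) (x : E) : p x - P.φ x ≤ P.conj p := by
  sorry

theorem Pot.conj_convexOn (hX : P.X = univ) (h0 : P.IsFlat ⊥) (p q : E →ₗ[ℝ] ℝ)
    (h : ∀ s : ℝ, 0 ≤ s → P.Supp (p + s • q)) :
    ConvexOn ℝ (Set.Ici (0 : ℝ)) (fun s => P.conj (p + s • q)) := by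
  sorry

end Pool.Agent.Helper47.HP
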