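import Pool.Agent.Helper47.HP.Core

/-! # Project HC: the additional representation, with the bound by the span -/

set_option autoImplicit false

open Set

namespace Pool.Agent.Helper47.HP

variable {E : Type*} [NormedAddCommGroup E] [NormedSpace ℝ E] [FiniteDimensional ℝ E] (P : Pot E)

/-- The additional representation, its cone, and the bodies. -/
theorem Pot.exists_core2 (Γ : Subgroup (E ≃ᵃ[ℝ] E)) (hne : P.X.Nonempty)
    (hinv : ∀ g ∈ Γ, ∀ x ∈ P.X, g x ∈ P.X)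
    (hφ : ∀ g ∈ Γ, ∃ a : E →ᵃ[ℝ] ℝ, ∀ x ∈ P.X, P.φ (g x) = P.φ x + a x)
    (W : Submodule ℝ E) (hW : P.IsFlat W) :
    ∃ (d : ℕ) (σ : Γ →* ((Fin d → ℝ) →ₗ[ℝ] (Fin d → ℝ))) (C : Set (Fin d → ℝ)),
      0 < d ∧ (∀ T : Submodule ℝ (E × ℝ), (∀ e ∈ P.epi, e ∈ T) →
        d + Module.finrank ℝ W ≤ Module.finrank ℝ T) ∧
      IsOpen C ∧ Convex ℝ C ∧ C.Nonempty ∧ (∀ v ∈ C, ∀ t : ℝ, 0 < t → t • v ∈ C) ∧
      (∀ v, v ≠ 0 → ∃ x ∈ C, ∃ t : ℝ, x + t • v ∉ C) ∧ (∀ g, ∀ v ∈ C, σ g v ∈ C) ∧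
      ∀ R : ℝ, ∃ C' : ℝ, 0 ≤ C' ∧ ∀ g : Γ, SBdd σ R g → ABdd P.V R g.1 →
        ∃ K, IsBody P.V W K ∧ ∀ v ∈ K, ∃ u ∈ K, g.1.linear v = C' • u := by
  obtain ⟨x₀, hx₀⟩ := hne
  obtain ⟨a, ρ, ha, hρ, hρS⟩ := P.exists_rep Γ ⟨x₀, hx₀⟩ hinv hφ
  have he₁ : ((0 : E), (1 : ℝ)) ∈ P.epi := P.vert_mem_epi zero_le_one
  have he₁' : -((0 : E), (1 : ℝ)) ∉ P.epi := by
    intro h
    have h1 := h.2 x₀ hx₀
    have h2 : x₀ + (-((0 : E), (1 : ℝ))).1 = x₀ := by simp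
    have h3 : (-((0 : E), (1 : ℝ))).2 = -1 := rfl
    rw [h2, h3] at h1
    linarith
  obtain ⟨d, σ, π, C, f, c, hd, hdim, hπ, hker, hCo, hCc, hCn, hCs, hCp, hCi, hc, hf⟩ :=
    exists_quot ρ P.epi P.isClosed_epi P.zero_mem_epi (fun a ha b hb => P.add_mem_epi ha hb)
      (fun a ha t ht => P.smul_mem_epi ha ht) hρS _ he₁ he₁'
  refine ⟨d, σ, C, hd, ?_, hCo, hCc, hCn, hCs, hCp, hCi, ?_⟩
  · intro T hT
    have h1 := hdim (core_lin P) T (core_mem_lin P) hT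
    have h2 := core_finrank_W P W hW
    omega
  intro R
  -- the linear form
  have hq : π ((0 : E), (1 : ℝ)) ≠ 0 := fun h => he₁' ((hker _ he₁).1 h)
  set ℓ : (E × ℝ) →ₗ[ℝ] ℝ := f.comp π with hℓ
  have hℓ1 : 0 < ℓ ((0 : E), (1 : ℝ)) :=
    lt_of_lt_of_le (mul_pos hc (norm_pos_iff.2 hq)) (hf _ he₁)
  set s : ℝ := ℓ ((0 : E), (1 : ℝ)) with hs
  let p : E →ₗ[ℝ] ℝ := (-s⁻¹) • (ℓ.comp (LinearMap.inl ℝ E ℝ))
  have hℓe : ∀ e : E × ℝ, ℓ e = s * (e.2 - p e.1) := by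
    intro e
    have h1 : e = (e.1, (0 : ℝ)) + e.2 • ((0 : E), (1 : ℝ)) := by
      ext <;> simp
    have h2 : p e.1 = -s⁻¹ * ℓ (e.1, (0 : ℝ)) := rfl
    have h3 : ℓ e = ℓ (e.1, (0 : ℝ)) + e.2 * s := by
      conv_lhs => rw [h1]
      rw [map_add, map_smul, smul_eq_mul]
    rw [h3, h2]
    field_simp
    ring
  have hnn : ∀ e ∈ P.epi, c * ‖π e‖ ≤ s * (e.2 - p e.1) := fun e he => by
    rw [← hℓe e]
    exact hf e he
  have hp : P.Supp p := by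
    intro e he
    constructor
    · intro hne
      have h1 : π e ≠ 0 := fun h => hne ((hker _ he).1 h)
      have h2 : 0 < s * (e.2 - p e.1) := lt_of_lt_of_le (mul_pos hc (norm_pos_iff.2 h1)) (hnn e he)
      have h3 : 0 < e.2 - p e.1 := by
        by_contra hcon
        push Not at hcon
        have := mul_nonpos_of_nonneg_of_nonpos hℓ1.le hcon
        linarith
      linarith
    · intro hne
      have h1 : π e = 0 := (hker _ he).2 hne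
      have h2 : ℓ e = 0 := by
        rw [hℓ, LinearMap.comp_apply, h1, map_zero]
      rw [hℓe e] at h2
      have h3 := (mul_eq_zero.1 h2).resolve_left hℓ1.ne'
      linarith
  -- the constant
  set B : ℝ := ‖LinearMap.toContinuousLinearMap f‖ with hB
  have hfB : ∀ v, f v ≤ B * ‖v‖ := by
    intro v
    have h := (LinearMap.toContinuousLinearMap f).le_opNorm v
    exact (le_abs_self _).trans h
  obtain ⟨D, hD, hbody⟩ := P.exists_body W hW hx₀ p hp R (B * R ^ 2 / c)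
  refine ⟨D, hD, fun g hg hA => ?_⟩
  refine hbody g.1 (a g) (hinv g.1 g.2) (hinv g.1⁻¹ (Γ.inv_mem g.2)) (ha g) hA ?_
  intro e he
  have hfix : σ g (π ((0 : E), (1 : ℝ))) = π ((0 : E), (1 : ℝ)) := by
    rw [← hπ g _ he₁, hρ]
    simp
  have hσ := sbdd_fix hg _ hq hfix (π e)
  have h1 : ℓ (ρ g e) = s * (e.2 + (a g).linear e.1 - p (g.1.linear e.1)) := by
    rw [hℓe (ρ g e), hρ]
  have h2 : ℓ (ρ g e) = f (σ g (π e)) := by
    rw [hℓ, LinearMap.comp_apply, hπ g e he]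
  have h3 : f (σ g (π e)) ≤ B * (R ^ 2 * ‖π e‖) :=
    (hfB _).trans (mul_le_mul_of_nonneg_left hσ (norm_nonneg _))
  have h4 : B * (R ^ 2 * ‖π e‖) ≤ B * R ^ 2 / c * (s * (e.2 - p e.1)) := by
    have h5 : B * (R ^ 2 * ‖π e‖) = B * R ^ 2 / c * (c * ‖π e‖) := by
      field_simp
    rw [h5]
    exact mul_le_mul_of_nonneg_left (hnn e he)
      (div_nonneg (mul_nonneg (norm_nonneg _) (sq_nonneg R)) hc.le)
  have h6 : s * (e.2 + (a g).linear e.1 - p (g.1.linear e.1)) ≤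
      s * (B * R ^ 2 / c * (e.2 - p e.1)) := by
    rw [← h1, h2]
    refine (h3.trans h4).trans (le_of_eq ?_)
    ring
  exact le_of_mul_le_mul_left h6 hℓ1

end Pool.Agent.Helper47.HP
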