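import Pool.Agent.Helper47.HP.Rep

/-!
# Project HC (MP_f22a19_gt): equivariant convex potentials on the whole space. Definitions.
-/

set_option autoImplicit false

open Set

namespace Pool.Agent.Helper47.HP

section

variable {E : Type*} [NormedAddCommGroup E] [NormedSpace ℝ E]

/-- `g` is an affine symmetry of the potential `φ` (on the whole space) up to the affine
function `a`. -/
def Pot.Aut (P : Pot E) (g : E ≃ᵃ[ℝ] E) (a : E →ᵃ[ℝ] ℝ) : Prop := ∀ x, P.φ (g x) = P.φ x + a x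

/-- The linear form corresponding to `p` under the symmetry `g`. -/
noncomputable def pullForm (g : E ≃ᵃ[ℝ] E) (a : E →ᵃ[ℝ] ℝ) (p : E →ₗ[ℝ] ℝ) : E →ₗ[ℝ] ℝ :=
  p.comp (g.linear : E →ₗ[ℝ] E) - a.linear

/-- The points where `φ - p` is at most its infimum plus one. -/
def Pot.Low (P : Pot E) (p : E →ₗ[ℝ] ℝ) : Set E := {x | ∀ z, P.φ x - p x ≤ P.φ z - p z + 1}

/-- `y` is a deep point of `Low p`. -/
def Pot.Good (P : Pot E) (θ : ℝ) (p : E →ₗ[ℝ] ℝ) (y : E) : Prop :=
  y ∈ P.Low p ∧ ∀ z ∈ P.Low p, (1 + θ) • y - θ • z ∈ P.Low p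

/-- The conjugate function of `φ`. -/
noncomputable def Pot.conj (P : Pot E) (p : E →ₗ[ℝ] ℝ) : ℝ :=
  sSup (Set.range fun x => p x - P.φ x)

end

end Pool.Agent.Helper47.HP
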