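import Pool.Agent.Helper47.HC.CaseA
import Pool.Agent.Helper47.HC.CaseB

/-! # Project HC: the recession cone of a non-affine potential does not span -/

set_option autoImplicit false

open Set

namespace Pool.Agent.Helper47.HP

variable {E : Type*} [NormedAddCommGroup E] [NormedSpace ℝ E] [FiniteDimensional ℝ E]

theorem Pot.exists_vanish [Nontrivial E] {P : Pot E} (hX : P.X = univ) (h0 : P.IsFlat ⊥)
    {K : Set E} (hK : IsCompact K)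
    (hco : ∀ x : E, ∃ y ∈ K, ∃ (g : E ≃ᵃ[ℝ] E) (a : E →ᵃ[ℝ] ℝ), P.Aut g a ∧ g y = x) :
    ∃ q : E →ₗ[ℝ] ℝ, q ≠ 0 ∧ ∀ e ∈ P.epi, q e.1 = 0 := by
  by_contra hcon
  push Not at hcon
  have hspan : ∀ q : E →ₗ[ℝ] ℝ, (∀ e ∈ P.epi, q e.1 = 0) → q = 0 := by
    intro q hq
    by_contra h
    obtain ⟨e, he, he'⟩ := hcon q h
    exact he' (hq e he)
  exact Pot.caseB hX h0 hK hco (fun q hq => Pot.caseA hX h0 hK hco hspan q hq)

theorem Pot.exists_proper (P : Pot E) (hX : P.X = univ) (W : Submodule ℝ E) (hW : P.IsFlat W)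
    (hWt : W ≠ ⊤) {K : Set E} (hK : IsCompact K)
    (hco : ∀ x : E, ∃ y ∈ K, ∃ (g : E ≃ᵃ[ℝ] E) (a : E →ᵃ[ℝ] ℝ), P.Aut g a ∧ g y = x) :
    ∃ T : Submodule ℝ (E × ℝ), T ≠ ⊤ ∧ ∀ e ∈ P.epi, e ∈ T := by
  sorry

end Pool.Agent.Helper47.HP
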