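import Pool.Agent.Helper94.AS.Stmt

/-! # Project HC: statement -/

set_option autoImplicit false

open Set Finset
open scoped Matrix

namespace Pool.Agent.Helper47.HC

open Pool.AF Pool.SV

/-- There is a convex function `φ` on `X` such that `φ ∘ g - φ` is affine for all `g ∈ Γ`, and the
action of `Γ` on the space `F r` of the directions of the lineality space `V` of `X` in which `φ` is
affine is dominated by actions on cones or symmetric spaces of total dimension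
`∑ n_j ≤ dim F r` (and `< dim F r` if `F r` is the whole space): the elements that are bounded up
to scalars in all the representations and bounded on `E / V` are bounded up to scalars on the
quotients of an invariant flag of `F r`. -/
def PotentialDominated {E : Type*} [NormedAddCommGroup E] [NormedSpace ℝ E]
    (Γ : Subgroup (E ≃ᵃ[ℝ] E)) (X : Set E) : Prop :=
  ∃ (φ : E → ℝ) (V : Submodule ℝ E) (r : ℕ) (F : ℕ → Submodule ℝ E) (k : ℕ) (d n : Fin k → ℕ)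
    (σ : ∀ j, Γ →* ((Fin (d j) → ℝ) →ₗ[ℝ] (Fin (d j) → ℝ))),
    ConvexOn ℝ X φ ∧
    (∀ g ∈ Γ, ∃ a : E →ᵃ[ℝ] ℝ, ∀ x ∈ X, φ (g x) = φ x + a x) ∧
    (∀ v, v ∈ V ↔ ∀ x ∈ X, ∀ t : ℝ, x + t • v ∈ X) ∧
    F 0 = ⊥ ∧
    (∀ v, v ∈ F r ↔ v ∈ V ∧ ∃ τ : ℝ, ∀ x ∈ X, ∀ t : ℝ, φ (x + t • v) = φ x + t * τ) ∧
    (∀ i < r, F i ≤ F (i + 1) ∧ ∀ g ∈ Γ, ∀ v ∈ F (i + 1), g.linear v ∈ F (i + 1)) ∧
    (∀ j, SmallAction (σ j) (n j)) ∧
    ∑ j, n j ≤ Module.finrank ℝ (F r) ∧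
    (F r = ⊤ → ∑ j, n j < Module.finrank ℝ (F r)) ∧
    ∀ R : ℝ, ∃ R' : ℝ, ∀ g : Γ, (∀ j, ScalBdd (σ j) R g) → AffBdd V R g.1 →
      ∀ i < r, QuotBdd (F i) (F (i + 1)) R' g.1

/-- The same for some subgroup of finite index of `Γ`. -/
def VirtuallyPotentialDominated {m : ℕ} (Γ : Subgroup (Aff m))
    (X : Set (EuclideanSpace ℝ (Fin m))) : Prop :=
  ∃ Γ₁ : Subgroup (Aff m), Γ₁ ≤ Γ ∧ Γ₁.relIndex Γ ≠ 0 ∧ PotentialDominated Γ₁ X

end Pool.Agent.Helper47.HC
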