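import Pool.Agent.Helper47.HC.Defs

/-! # Project HC: invariance under affine symmetries -/

set_option autoImplicit false

open Set

namespace Pool.Agent.Helper47.HP

variable {E : Type*} [NormedAddCommGroup E] [NormedSpace ℝ E] {P : Pot E}

theorem pullForm_apply (g : E ≃ᵃ[ℝ] E) (a : E →ᵃ[ℝ] ℝ) (p : E →ₗ[ℝ] ℝ) (v : E) :
    pullForm g a p v = p (g.linear v) - a.linear v := rfl

theorem pullForm_add (g : E ≃ᵃ[ℝ] E) (a : E →ᵃ[ℝ] ℝ) (p u : E →ₗ[ℝ] ℝ) :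
    pullForm g a (p + u) = pullForm g a p + u.comp (g.linear : E →ₗ[ℝ] E) := by
  sorry

theorem Pot.Aut.symm {g : E ≃ᵃ[ℝ] E} {a : E →ᵃ[ℝ] ℝ} (h : P.Aut g a) :
    P.Aut g.symm (-(a.comp (g.symm : E →ᵃ[ℝ] E))) := by
  sorry

theorem Pot.Aut.epi (hX : P.X = univ) {g : E ≃ᵃ[ℝ] E} {a : E →ᵃ[ℝ] ℝ} (h : P.Aut g a)
    {e : E × ℝ} (he : e ∈ P.epi) : (g.linear e.1, e.2 + a.linear e.1) ∈ P.epi := by
  sorry

theorem Pot.Aut.epi_inv (hX : P.X = univ) {g : E ≃ᵃ[ℝ] E} {a : E →ᵃ[ℝ] ℝ} (h : P.Aut g a)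
    {e : E × ℝ} (he : e ∈ P.epi) :
    (g.linear.symm e.1, e.2 - a.linear (g.linear.symm e.1)) ∈ P.epi := by
  sorry

theorem Pot.Aut.supp (hX : P.X = univ) {g : E ≃ᵃ[ℝ] E} {a : E →ᵃ[ℝ] ℝ} (h : P.Aut g a)
    (p : E →ₗ[ℝ] ℝ) : P.Supp (pullForm g a p) ↔ P.Supp p := by
  sorry

theorem Pot.Aut.good {g : E ≃ᵃ[ℝ] E} {a : E →ᵃ[ℝ] ℝ} (h : P.Aut g a)
    {θ : ℝ} {p : E →ₗ[ℝ] ℝ} {y : E} (hy : P.Good θ p (g y)) : P.Good θ (pullForm g a p) y := by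
  sorry

theorem Pot.Aut.conj {g : E ≃ᵃ[ℝ] E} {a : E →ᵃ[ℝ] ℝ} (h : P.Aut g a)
    (p : E →ₗ[ℝ] ℝ) (hb : BddAbove (Set.range fun x => p x - P.φ x)) :
    P.conj p = P.conj (pullForm g a p) + (p (g 0) - a 0) := by
  sorry

end Pool.Agent.Helper47.HP
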